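import Pool.Agent.H445Z.CubSt

namespace Pool.Agent.H583Z.Cub

open MeasureTheory Filter Finset Pool.Agent.H445Z.Cub

noncomputable section

/-- a cosine series -/
def ser (A ph : ℝ) (w : ℕ → ℝ) (t : ℝ) : ℝ := A + 2 * ∑' k : ℕ, w k * Real.cos (k * t + ph)

lemma term_bound (ph : ℝ) (w : ℕ → ℝ) (k : ℕ) (t : ℝ) :
    ‖w k * Real.cos (k * t + ph)‖ ≤ |w k| := by
  rw [norm_mul, Real.norm_eq_abs, Real.norm_eq_abs]
  exact mul_le_of_le_one_right (abs_nonneg _) (Real.abs_cos_le_one _)

lemma ser_summable (ph : ℝ) {w : ℕ → ℝ} (hw : Summable w) (t : ℝ) :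
    Summable fun k : ℕ => w k * Real.cos (k * t + ph) :=
  Summable.of_norm_bounded hw.abs fun k => term_bound ph w k t

lemma ser_cont (A ph : ℝ) {w : ℕ → ℝ} (hw : Summable w) : Continuous (ser A ph w) := by
  unfold ser
  refine continuous_const.add (continuous_const.mul ?_)
  exact continuous_tsum (fun k => by fun_prop) hw.abs fun k t => term_bound ph w k t

lemma ser_per (A ph : ℝ) (w : ℕ → ℝ) : Function.Periodic (ser A ph w) (2 * Real.pi) := by
  intro t
  unfold ser
  congr 2
  refine tsum_congr fun k => ?_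
  rw [show (k:ℝ) * (t + 2 * Real.pi) + ph = (k * t + ph) + k * (2 * Real.pi) by ring,
    Real.cos_add_nat_mul_two_pi]

lemma dl_pos (a : ℕ) : 0 < dl a := by unfold dl; positivity

lemma dl_mul (a : ℕ) : (2:ℝ)^a * dl a = 2 * Real.pi := by unfold dl; field_simp

lemma tele (a k : ℕ) (ph t : ℝ) :
    Real.sin (k * dl a / 2) * ∑ c ∈ range (2^a), Real.cos (k * (t - c * dl a) + ph) = 0 := by
  have h : ∀ c : ℕ, 2 * (Real.sin (k * dl a / 2) * Real.cos (k * (t - c * dl a) + ph))
      = Real.sin (k * t + ph + k * dl a / 2 - c * (k * dl a))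
        - Real.sin (k * t + ph + k * dl a / 2 - ((c+1 : ℕ):ℝ) * (k * dl a)) := by
    intro c
    have e1 : (k:ℝ) * t + ph + k * dl a / 2 - c * (k * dl a)
        = (k * (t - c * dl a) + ph) + k * dl a / 2 := by ring
    have e2 : (k:ℝ) * t + ph + k * dl a / 2 - ((c+1 : ℕ):ℝ) * (k * dl a)
        = (k * (t - c * dl a) + ph) - k * dl a / 2 := by push_cast; ring
    rw [e1, e2, Real.sin_add, Real.sin_sub]; ring
  have h2 := Finset.sum_range_sub' (fun c : ℕ =>
    Real.sin (k * t + ph + k * dl a / 2 - c * (k * dl a))) (2^a)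
  rw [← sum_congr rfl (fun c _ => h c), ← mul_sum, ← mul_sum] at h2
  have e3 : (k:ℝ) * t + ph + k * dl a / 2 - ((2^a : ℕ):ℝ) * (k * dl a)
      = (k * t + ph + k * dl a / 2) - k * (2 * Real.pi) := by
    rw [← dl_mul a]; push_cast; ring
  rw [e3, Real.sin_sub_nat_mul_two_pi] at h2
  simp only [Nat.cast_zero, zero_mul, sub_zero, sub_self] at h2
  linarith

lemma ser_sum (a : ℕ) (ph : ℝ) {w : ℕ → ℝ} (hw : Summable w)
    (h0 : ∀ k : ℕ, Real.sin (k * dl a / 2) = 0 → w k = 0) (t : ℝ) :
    ∑ c ∈ range (2^a), ser ((2:ℝ)^a)⁻¹ ph w (t - c * dl a) = 1 := by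
  unfold ser
  rw [sum_add_distrib, ← mul_sum,
    ← Summable.tsum_finsetSum (f := fun (c k : ℕ) => w k * Real.cos (k * (t - c * dl a) + ph))
      (fun c _ => ser_summable ph hw (t - c * dl a))]
  have : ∀ k : ℕ, ∑ c ∈ range (2^a), w k * Real.cos (k * (t - c * dl a) + ph) = 0 := by
    intro k
    rw [← mul_sum]
    rcases mul_eq_zero.1 (tele a k ph t) with h | h
    · rw [h0 k h, zero_mul]
    · rw [h, mul_zero]
  simp [this]

lemma coe_rep (x : Circ) : ((rep x : ℝ) : Circ) = x :=
  (AddCircle.equivIco (2 * Real.pi) 0).symm_apply_apply x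

lemma lift_cont {g : ℝ → ℝ} (hg : Continuous g) (hp : Function.Periodic g (2 * Real.pi)) :
    ∃ G : Circ → ℝ, Continuous G ∧ ∀ (x : Circ) (c : ℝ), g (rep x - c) = G (x - (c : Circ)) := by
  refine ⟨hp.lift, ?_, fun x c => ?_⟩
  · exact (QuotientAddGroup.isQuotientMap_mk _).continuous_iff.2 hg
  · conv_rhs => rw [← coe_rep x, ← AddCircle.coe_sub]
    exact (hp.lift_coe _).symm

lemma coef_summable (r : ℝ) (_hr0 : 0 ≤ r) (hr : r ≤ 1 / 2) (a : ℕ) :
    Summable fun k : ℕ => coef a k * (k:ℝ)^r := by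
  have hs : Summable fun k : ℕ => (4 / (2^a * dl a ^ 2)) * (k:ℝ)^(r - 2) :=
    (Real.summable_nat_rpow.2 (by linarith)).mul_left _
  have hd := dl_pos a
  refine Summable.of_nonneg_of_le (fun k => by unfold coef; positivity) (fun k => ?_) hs
  rcases Nat.eq_zero_or_pos k with rfl | hk
  · simp only [coef, Nat.cast_zero, zero_mul]
    have : (0:ℝ) ≤ (0:ℝ)^(r-2) := Real.rpow_nonneg le_rfl _
    simp only [zero_div, Real.sin_zero, ne_eq, OfNat.ofNat_ne_zero, not_false_eq_true, zero_pow,
      mul_zero, zero_mul]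
    positivity
  · have hk' : (0:ℝ) < k := by exact_mod_cast hk
    rw [Real.rpow_sub hk', Real.rpow_two]
    have h1 : coef a k ≤ 4 / (2^a * (k * dl a)^2) := by
      unfold coef
      refine div_le_div_of_nonneg_right ?_ (by positivity)
      nlinarith [Real.sin_sq_le_one (k * dl a / 2)]
    calc _ ≤ 4 / (2^a * (k * dl a)^2) * (k:ℝ)^r :=
          mul_le_mul_of_nonneg_right h1 (by positivity)
      _ = _ := by field_simp

lemma coef_summable0 (a : ℕ) : Summable (coef a) := by
  simpa using coef_summable 0 le_rfl (by norm_num) a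

lemma eta_eq (r : ℝ) (a : ℕ) :
    eta r a = ser ((2:ℝ)^a)⁻¹ (r * Real.pi / 2) (fun k => coef a k * (k:ℝ)^r) := rfl

lemma hat_eq (a : ℕ) : hat a = ser ((2:ℝ)^a)⁻¹ 0 (coef a) := by
  funext t; simp [hat, ser]

lemma cos_series (x : ℝ) (h0 : 0 ≤ x) (h1 : x ≤ 2 * Real.pi) :
    HasSum (fun n : ℕ => 1 / (n:ℝ)^2 * Real.cos (n * x))
      (Real.pi^2 / 6 - Real.pi * x / 2 + x^2 / 4) := by
  have hp := Real.pi_pos
  have := hasSum_one_div_nat_pow_mul_cos (k := 1) one_ne_zero (x := x / (2 * Real.pi))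
    ⟨by positivity, by rw [div_le_one (by positivity)]; exact h1⟩
  convert this using 1
  · funext n
    congr 2
    field_simp
  · have hb := bernoulliFun_two (x / (2 * Real.pi))
    unfold bernoulliFun at hb
    simp only [mul_one, hb]
    simp [Nat.factorial]
    field_simp
    ring

lemma hat_zero (a : ℕ) (t : ℝ) (h0 : dl a ≤ t) (h1 : t ≤ 2 * Real.pi - dl a) : hat a t = 0 := by
  have hd := dl_pos a
  have s0 := cos_series t (by linarith) (by linarith)
  have s1 := cos_series (t + dl a) (by linarith) (by linarith)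
  have s2 := cos_series (t - dl a) (by linarith) (by linarith)
  have s3 := (((s0.mul_left 2).sub s1).sub s2).mul_left (1 / (2^a * dl a ^ 2))
  have e : (fun k : ℕ => coef a k * Real.cos (k * t)) = fun k : ℕ => 1 / (2^a * dl a ^ 2) *
      (2 * (1 / (k:ℝ)^2 * Real.cos (k * t)) - 1 / (k:ℝ)^2 * Real.cos (k * (t + dl a))
        - 1 / (k:ℝ)^2 * Real.cos (k * (t - dl a))) := by
    funext k
    rcases Nat.eq_zero_or_pos k with rfl | hk
    · simp [coef]
    · have hk' : (0:ℝ) < k := by exact_mod_cast hk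
      have hc : Real.cos (k * dl a) = 1 - 2 * Real.sin (k * dl a / 2)^2 := by
        rw [show (k:ℝ) * dl a = 2 * (k * dl a / 2) by ring, Real.cos_two_mul, Real.cos_sq']
        ring_nf
      rw [mul_add, mul_sub (k:ℝ) t, Real.cos_add, Real.cos_sub, hc]
      unfold coef
      field_simp
      ring
  unfold hat
  rw [e, s3.tsum_eq]
  field_simp
  ring

lemma hat_card (a : ℕ) (t : ℝ) :
    ((range (2 ^ a)).filter fun c : ℕ => hat a (t - c * dl a) ≠ 0).card ≤ 2 := by
  have hd := dl_pos a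
  have hper : Function.Periodic (hat a) (2 * Real.pi) := by rw [hat_eq]; exact ser_per _ _ _
  set N : ℤ := 2^a with hN
  have hN0 : 0 < N := by positivity
  have hNr : (N:ℝ) * dl a = 2 * Real.pi := by rw [← dl_mul a, hN]; push_cast; ring
  set q : ℤ := ⌊t / dl a⌋ with hq
  have hq1 : (q:ℝ) * dl a ≤ t := by rw [← le_div_iff₀ hd]; exact Int.floor_le _
  have hq2 : t < (q + 1) * dl a := by rw [← div_lt_iff₀ hd]; exact Int.lt_floor_add_one _
  refine (card_le_card_of_injOn (t := ({0, N - 1} : Finset ℤ)) (fun c : ℕ => (q - c) % N) ?_ ?_).trans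
    card_le_two
  · intro c hc
    simp only [coe_filter, Set.mem_ofPred_eq] at hc
    by_contra hcon
    simp only [coe_insert, coe_singleton, Set.mem_insert_iff, Set.mem_singleton_iff, not_or] at hcon
    apply hc.2
    have hρ0 := Int.emod_nonneg (q - c) hN0.ne'
    have hρ1 := Int.emod_lt_of_pos (q - c) hN0
    have hdiv := Int.emod_add_mul_ediv (q - c) N
    set ρ := (q - c) % N
    set j := (q - c) / N
    have h1 : (1:ℝ) ≤ ρ := by exact_mod_cast (show (1:ℤ) ≤ ρ by omega)
    have h2 : (ρ:ℝ) + 2 ≤ N := by exact_mod_cast (show ρ + 2 ≤ N by omega)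
    have h3 : (ρ:ℝ) + N * j = q - c := by exact_mod_cast hdiv
    have h4 : t - c * dl a = (t - q * dl a + ρ * dl a) + j * (2 * Real.pi) := by
      rw [← hNr]; linear_combination (-dl a) * h3
    rw [h4, hper.int_mul j]
    apply hat_zero <;> nlinarith
  · intro c hc c' hc' h
    simp only [coe_filter, mem_range, Set.mem_ofPred_eq] at hc hc'
    have h1 : (c:ℤ) < N := by rw [hN]; exact_mod_cast hc.1
    have h2 : (c':ℤ) < N := by rw [hN]; exact_mod_cast hc'.1
    have h3 : N ∣ (q - c') - (q - c) := Int.ModEq.dvd h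
    have h4 := Int.eq_zero_of_abs_lt_dvd h3 (by rw [abs_lt]; constructor <;> omega)
    omega

lemma hat_int (a : ℕ) (c : ℝ) :
    ∫ x : Circ, hat a (rep x - c) ∂AddCircle.haarAddCircle = ((2 : ℝ) ^ a)⁻¹ := by
  obtain ⟨G, hG, hGe⟩ := lift_cont (g := hat a) (by rw [hat_eq]; exact ser_cont _ _ (coef_summable0 a))
    (by rw [hat_eq]; exact ser_per _ _ _)
  have hI : ∀ c : ℝ, ∫ x : Circ, hat a (rep x - c) ∂AddCircle.haarAddCircle
      = ∫ x : Circ, G x ∂AddCircle.haarAddCircle := by
    intro c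
    simp only [hGe]
    exact integral_sub_right_eq_self G _
  have hint : ∀ c : ℝ, Integrable (fun x : Circ => hat a (rep x - c)) AddCircle.haarAddCircle := by
    intro c
    simp only [hGe]
    exact (hG.comp (continuous_id.sub continuous_const)).integrable_of_hasCompactSupport
      (HasCompactSupport.of_compactSpace _)
  have h1 : ∫ x : Circ, ∑ c ∈ range (2^a), hat a (rep x - c * dl a) ∂AddCircle.haarAddCircle = 1 := by
    have : ∀ x : Circ, ∑ c ∈ range (2^a), hat a (rep x - c * dl a) = 1 := by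
      intro x
      rw [hat_eq]
      exact ser_sum a 0 (coef_summable0 a) (fun k h => by simp [coef, h]) _
    simp [this]
  rw [integral_finsetSum _ (fun c _ => hint _)] at h1
  simp only [hI, sum_const, card_range, nsmul_eq_mul] at h1
  rw [hI]
  push_cast at h1
  field_simp
  linarith

theorem thm_etaAlg : S_etaAlg := by
  intro r hr0 hr a
  have hs := coef_summable r hr0.le hr a
  have hc : Continuous (eta r a) := by rw [eta_eq]; exact ser_cont _ _ hs
  have hp : Function.Periodic (eta r a) (2 * Real.pi) := by rw [eta_eq]; exact ser_per _ _ _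
  refine ⟨hc, hp, fun t => ?_, fun c => ?_, fun c => ?_, hat_card a, hat_int a⟩
  · rw [eta_eq]
    exact ser_sum a _ hs (fun k h => by simp [coef, h]) t
  · obtain ⟨G, hG, hGe⟩ := lift_cont hc hp
    simp only [hGe]
    exact hG.comp (continuous_id.sub continuous_const)
  · obtain ⟨G, hG, hGe⟩ := lift_cont (g := hat a)
      (by rw [hat_eq]; exact ser_cont _ _ (coef_summable0 a)) (by rw [hat_eq]; exact ser_per _ _ _)
    simp only [hGe]
    exact hG.comp (continuous_id.sub continuous_const)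

end

end Pool.Agent.H583Z.Cub
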